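import Pool.Agent.H66.End3

/-!
Counting the order-preserving self-maps of a finite poset is #P-complete.
-/

namespace Pool.Agent.Results.MP_593132_lc.Complete

open Pool.Agent.H38.NP Pool.Agent.H66.Sharp

theorem result : SharpPOn IsPoset endCount ∧ SharpHardOn IsPoset fun I => Bin.mk (endCount I) :=
  ⟨end_mem, end_hard⟩

end Pool.Agent.Results.MP_593132_lc.Complete
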